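import Pool.Agent.Helper66x.ST.Lim

set_option autoImplicit false

/-!
# MP_4b405e_nt: one percent of the progression is enough; prime multiples of the difference

Let `f(k)` be the exponents of the problem: `f^M_n(k) = n f(k)`, and `F` their limit.

Suppose that for every `r ∈ R` there is `a` such that `a + t r` is in `D` for a proportion `δ` of the
times `t` in one of the following sets:

* all integers `t < K`, for some `K ≥ K₀(k, δ)`;
* the integers of an interval `(A, A + X]` which avoid some residue classes (at most `m`) modulo the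
  primes `p ≤ X ^ κ`, for some `X ≥ X₀(k, m, κ, δ)`: at least `δ X ∏ (1 - |Z_p| / p)` of them;
* the primes up to `X`, `X ≥ X₀(k, δ)`.

Then `|R| ^ f(k) ≤ L |D|` for finite sets in torsion-free groups, `N_σ(R) ^ f(k) ≤ C L N_σ(B)` at every
scale for sets of vectors, and `f(k) dim R ≤ dim B`, where `L = K` in the first case and only
`L = (log X) ^ b` in the other cases, so that `X` may be as large as `exp (|R| ^ ε)`.

Hence for every `δ > 0` the infimum of the dimensions of the bounded sets in `ℝ^n` which contain a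
proportion `δ` of the points `a + t r` (`t < K`), or of the points `a + p r` (`p ≤ X` prime), for all
`r ∈ [0,1]^n`, tends to the same limit `n F` as `f^M_n(k)`, which is at least `0.5989 n`; and the conjecture
is equivalent to its forms for one percent of the integers `t < K` and for one percent of the primes up
to `X`.

Proof.  Szemerédi's theorem relative to sifted sets, with narrow progressions: the times contain
`k`-term progressions with a difference `d(r) ≤ L`.  The set `R` is decomposed according to the value of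
`d(r)`, and `D` contains `k`-term progressions with the differences `d r`.
-/

open Filter Topology

namespace Pool.Agent.Results.MP_4b405e_nt.SiftedTimes

/-- Euclidean space `ℝ^n`. -/
abbrev E (n : ℕ) : Type := EuclideanSpace ℝ (Fin n)

/-- The least number of sets of diameter at most `δ` covering `B` (for bounded `B`). -/
noncomputable def coverNum {n : ℕ} (B : Set (E n)) (δ : ℝ) : ℕ :=
  sInf {N | ∃ U : Fin N → Set (E n),
    (∀ i, ∀ x ∈ U i, ∀ y ∈ U i, dist x y ≤ δ) ∧ B ⊆ ⋃ i, U i}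

/-- Upper Minkowski dimension (upper box-counting dimension). -/
noncomputable def upperMinkowski {n : ℕ} (B : Set (E n)) : EReal :=
  limsup (fun δ : ℝ => ((Real.log (coverNum B δ) / Real.log (1 / δ) : ℝ) : EReal)) (𝓝[>] 0)

/-- Lower Minkowski dimension (lower box-counting dimension). -/
noncomputable def lowerMinkowski {n : ℕ} (B : Set (E n)) : EReal :=
  liminf (fun δ : ℝ => ((Real.log (coverNum B δ) / Real.log (1 / δ) : ℝ) : EReal)) (𝓝[>] 0)

/-- The cube `[0,1]^n`. -/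
def cube (n : ℕ) : Set (E n) := {r | ∀ i, r i ∈ Set.Icc (0 : ℝ) 1}

/-- `f^M_n(k)`: the infimum of the Minkowski dimensions of the bounded sets which contain a `k`-term
progression with every common difference in `[0,1]^n`. -/
noncomputable def fM (n k : ℕ) : EReal :=
  ⨅ (B : Set (E n)) (_ : Bornology.IsBounded B)
    (_ : ∀ r ∈ cube n, ∃ a : E n, ∀ j : ℕ, j < k → a + (j : ℝ) • r ∈ B), upperMinkowski B

/-- The primes up to `X`. -/
def primes (X : ℕ) : Finset ℕ := (Finset.range (X + 1)).filter Nat.Prime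

open Classical in
/-- The integers of `(A, A + X]` which are in none of the classes `Z p` modulo `p`, for all primes
`p ≤ X ^ κ`. -/
noncomputable def sifted (Z : ℕ → Finset ℕ) (κ : ℝ) (A X : ℕ) : Finset ℕ :=
  (Finset.Ioc A (A + X)).filter fun t =>
    ∀ p : ℕ, p.Prime → (p : ℝ) ≤ (X : ℝ) ^ κ → t % p ∉ Z p

open Classical in
/-- For every `r ∈ R` there is `a` with `a + t r ∈ D` for at least `c` of the times `t ∈ T`. -/
def ManyG {G : Type} [AddCommGroup G] (T : Finset ℕ) (c : ℝ) (R D : Finset G) : Prop :=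
  ∀ r ∈ R, ∃ a : G, c ≤ ((T.filter (fun t : ℕ => a + t • r ∈ D)).card : ℝ)

open Classical in
/-- The same for sets of vectors. -/
def Many {n : ℕ} (T : Finset ℕ) (c : ℝ) (R B : Set (E n)) : Prop :=
  ∀ r ∈ R, ∃ a : E n, c ≤ ((T.filter (fun t : ℕ => a + (t : ℝ) • r ∈ B)).card : ℝ)

/-- The infimum of the Minkowski dimensions of the bounded sets `B ⊆ ℝ^n` which for every
`r ∈ [0,1]^n` contain, for some `a`, at least `c` of the points `a + t r`, `t ∈ T`. -/
noncomputable def infDim (n : ℕ) (T : Finset ℕ) (c : ℝ) : EReal :=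
  ⨅ (B : Set (E n)) (_ : Bornology.IsBounded B) (_ : Many T c (cube n) B), upperMinkowski B

/-- The inequalities between sets of differences and sets which contain at least `c` of the points
`a + t r`, `t ∈ T`: exponent `f`, factor `L`. -/
def Bound (f : ℝ) (C : ℕ → ℝ) (T : Finset ℕ) (c L : ℝ) : Prop :=
  (∀ (G : Type) [AddCommGroup G] [IsAddTorsionFree G] (R D : Finset G), ManyG T c R D →
    (R.card : ℝ) ^ f ≤ L * D.card) ∧
  ∀ (n : ℕ) (R B : Set (E n)), Bornology.IsBounded B → Many T c R B →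
    (∀ σ : ℝ, 0 < σ → (coverNum R σ : ℝ) ^ f ≤ C n * L * coverNum B σ) ∧
    ∀ s : ℝ, ((s : EReal) ≤ upperMinkowski R → ((f * s : ℝ) : EReal) ≤ upperMinkowski B) ∧
      ((s : EReal) ≤ lowerMinkowski R → ((f * s : ℝ) : EReal) ≤ lowerMinkowski B)

/-- Q1. -/
def Q1 : Prop := ∀ n : ℕ, Tendsto (fun k => fM n k) atTop (𝓝 ((n : ℝ) : EReal))

theorem result : ∃ (f : ℕ → ℝ) (F : ℝ) (C : ℕ → ℕ → ℝ),
    -- the exponents of the problem
    (∀ k : ℕ, 2 ≤ k → 1 / 2 ≤ f k ∧ f k ≤ 1 ∧ ∀ n : ℕ, fM n k = ((n * f k : ℝ) : EReal)) ∧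
    Tendsto f atTop (𝓝 F) ∧ 1 / 1.669587 ≤ F ∧ F ≤ 1 ∧
    (∀ k : ℕ, 2 ≤ k →
      -- 1. a proportion `δ` of the integers `t < K`
      (∀ δ : ℝ, 0 < δ → ∃ K₀ : ℕ, ∀ K : ℕ, K₀ ≤ K →
        Bound (f k) (C k) (Finset.range K) (δ * K) K) ∧
      -- 2. a proportion `δ` of a sifted set
      (∀ (m : ℕ) (κ δ : ℝ), 0 < κ → 0 < δ → ∃ b X₀ : ℕ, ∀ X : ℕ, X₀ ≤ X →
        ∀ (A : ℕ) (Z : ℕ → Finset ℕ),
        (∀ p : ℕ, p.Prime → (p : ℝ) ≤ (X : ℝ) ^ κ →
          (Z p).card ≤ m ∧ (Z p).card < p ∧ ∀ c ∈ Z p, c < p) →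
        Bound (f k) (C k) (sifted Z κ A X)
          (δ * X * ∏ p ∈ (Finset.Ioc 0 ⌊(X : ℝ) ^ κ⌋₊).filter Nat.Prime, (1 - ((Z p).card : ℝ) / p))
          (Real.log X ^ b)) ∧
      -- 3. a proportion `δ` of the primes up to `X`
      (∀ δ : ℝ, 0 < δ → ∃ b X₀ : ℕ, ∀ X : ℕ, X₀ ≤ X →
        Bound (f k) (C k) (primes X) (δ * (primes X).card) (Real.log X ^ b))) ∧
    (∀ δ : ℝ, 0 < δ → δ ≤ 1 →
      -- 4. the limits of the dimensions
      (∀ n : ℕ,
        Tendsto (fun K : ℕ => infDim n (Finset.range K) (δ * K)) atTop (𝓝 ((n * F : ℝ) : EReal)) ∧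
        Tendsto (fun X : ℕ => infDim n (primes X) (δ * (primes X).card)) atTop
          (𝓝 ((n * F : ℝ) : EReal))) ∧
      -- 5. equivalent forms of the conjecture
      (Q1 ↔ ∀ ε : ℝ, 0 < ε → ∃ (K : ℕ) (L : ℝ), ∀ R D : Finset ℤ, R.Nonempty →
        ManyG (Finset.range K) (δ * K) R D → (R.card : ℝ) ^ (1 - ε) ≤ L * D.card) ∧
      (Q1 ↔ ∀ ε : ℝ, 0 < ε → ∃ b X₀ : ℕ, ∀ X : ℕ, X₀ ≤ X → ∀ R D : Finset ℤ, R.Nonempty →
        ManyG (primes X) (δ * (primes X).card) R D →
        (R.card : ℝ) ^ (1 - ε) ≤ Real.log X ^ b * D.card)) := by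
  obtain ⟨f, F, hf, hle, ht, hF1, hF0⟩ := Pool.Agent.Helper66x.ST.exists_F
  have hC : ∀ k n : ℕ, ∃ C : ℝ, 2 ≤ k → 0 < C ∧
      ∀ (T : Finset ℕ) (c L : ℝ) (H : ℕ), Pool.Agent.Helper66x.ST.Rich T c k H → (H : ℝ) ≤ L →
      ∀ R B : Set (E n), Bornology.IsBounded B → Many T c R B →
      ∀ σ : ℝ, 0 < σ → (coverNum R σ : ℝ) ^ (f k) ≤ C * L * coverNum B σ := by
    intro k n
    by_cases hk : 2 ≤ k
    · obtain ⟨C, hC, h⟩ := Pool.Agent.Helper66x.ST.real_bound hk (hf k hk) n
      exact ⟨C, fun _ => ⟨hC, h⟩⟩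
    · exact ⟨0, fun h => absurd h hk⟩
  choose C hC using hC
  have hB : ∀ k : ℕ, 2 ≤ k → ∀ (T : Finset ℕ) (c L : ℝ) (H : ℕ),
      Pool.Agent.Helper66x.ST.Rich T c k H → (H : ℝ) ≤ L → Bound (f k) (C k) T c L := by
    intro k hk T c L H hT hL
    refine ⟨fun G _ _ R D h => Pool.Agent.Helper66x.ST.group_bound hk (hf k hk) hT hL R D h,
      fun n R B hB hM => ⟨(hC k n hk).2 T c L H hT hL R B hB hM, fun s =>
        Pool.Agent.Helper66x.ST.dim_bound hk (hf k hk) hT R B hB hM s⟩⟩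
  have hlogfloor : ∀ (b X : ℕ), (⌊Real.log X ^ b⌋₊ : ℝ) ≤ Real.log X ^ b := fun b X =>
    Nat.floor_le (pow_nonneg (Real.log_natCast_nonneg X) b)
  have hQ : Q1 ↔ F = 1 := Pool.Agent.Helper66x.ST.conj_iff hf ht
  refine ⟨f, F, C, fun k hk => ⟨(hf k hk).half, (hf k hk).one, (hf k hk).dim⟩, ht, hF0, hF1,
    fun k hk => ⟨fun δ hδ => ?_, fun m κ δ hκ hδ => ?_, fun δ hδ => ?_⟩,
    fun δ hδ hδ1 => ⟨fun n => ⟨?_, ?_⟩, ?_, ?_⟩⟩
  · obtain ⟨K₀, -, h⟩ := Pool.Agent.Helper66x.ST.rich_range hk hδ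
    exact ⟨K₀, fun K hK => hB k hk _ _ _ K (h K hK) le_rfl⟩
  · obtain ⟨b, X₀, h⟩ := Pool.Agent.Helper66x.ST.rich_sifted k m hκ hδ
    exact ⟨b, X₀, fun X hX A Z hZ => hB k hk _ _ _ _ (h X hX A Z hZ) (hlogfloor b X)⟩
  · obtain ⟨b, X₀, h⟩ := Pool.Agent.Helper66x.ST.rich_primes k hδ
    exact ⟨b, X₀, fun X hX => hB k hk _ _ _ _ (h X hX) (hlogfloor b X)⟩
  · refine Pool.Agent.Helper66x.ST.tendsto_infD hf hle ht n (fun K => Finset.range K)
      (fun K => δ * K) (fun K => Finset.range_subset_range.2 (Nat.le_succ K)) (fun K => ?_)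
      (fun k hk => ?_)
    · rw [Finset.card_range]
      have : (0 : ℝ) ≤ K := Nat.cast_nonneg K
      nlinarith
    · obtain ⟨K₀, -, h⟩ := Pool.Agent.Helper66x.ST.rich_range hk hδ
      exact ⟨K₀, fun K hK => ⟨K, h K hK⟩⟩
  · refine Pool.Agent.Helper66x.ST.tendsto_infD hf hle ht n (fun X => primes X)
      (fun X => δ * (primes X).card) (fun X => Finset.filter_subset _ _) (fun X => ?_)
      (fun k hk => ?_)
    · have : (0 : ℝ) ≤ (primes X).card := Nat.cast_nonneg _
      nlinarith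
    · obtain ⟨b, X₀, h⟩ := Pool.Agent.Helper66x.ST.rich_primes k hδ
      exact ⟨X₀, fun X hX => ⟨_, h X hX⟩⟩
  · rw [hQ]
    constructor
    · intro hF ε hε
      rw [hF] at ht
      obtain ⟨k, hk, hk1⟩ := Pool.Agent.Helper66x.ST.exists_k ht hε
      obtain ⟨K₀, -, h⟩ := Pool.Agent.Helper66x.ST.rich_range hk hδ
      refine ⟨K₀, K₀, fun R D hR hM => ?_⟩
      refine le_trans ?_ ((hB k hk _ _ _ K₀ (h K₀ le_rfl) le_rfl).1 ℤ R D hM)
      exact Real.rpow_le_rpow_of_exponent_le (by exact_mod_cast hR.card_pos) hk1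
    · intro h
      refine le_antisymm hF1 (le_of_forall_pos_le_add fun ε hε => ?_)
      obtain ⟨K, L, hKL⟩ := h ε hε
      have := Pool.Agent.Helper66x.ST.le_F hf hle (e := 1 - ε) (C := L) (T := Finset.range K)
        (c := δ * K) (by
          rw [Finset.card_range]
          have : (0 : ℝ) ≤ K := Nat.cast_nonneg K
          nlinarith) hKL
      linarith
  · rw [hQ]
    constructor
    · intro hF ε hε
      rw [hF] at ht
      obtain ⟨k, hk, hk1⟩ := Pool.Agent.Helper66x.ST.exists_k ht hε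
      obtain ⟨b, X₀, h⟩ := Pool.Agent.Helper66x.ST.rich_primes k hδ
      refine ⟨b, X₀, fun X hX R D hR hM => ?_⟩
      refine le_trans ?_ ((hB k hk _ _ _ _ (h X hX) (hlogfloor b X)).1 ℤ R D hM)
      exact Real.rpow_le_rpow_of_exponent_le (by exact_mod_cast hR.card_pos) hk1
    · intro h
      refine le_antisymm hF1 (le_of_forall_pos_le_add fun ε hε => ?_)
      obtain ⟨b, X, hX⟩ := h ε hε
      have := Pool.Agent.Helper66x.ST.le_F hf hle (e := 1 - ε) (C := Real.log X ^ b) (T := primes X)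
        (c := δ * (primes X).card) (by
          have : (0 : ℝ) ≤ (primes X).card := Nat.cast_nonneg _
          nlinarith) (hX X le_rfl)
      linarith

end Pool.Agent.Results.MP_4b405e_nt.SiftedTimes
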